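import Mathlib
import Pool.Agent.H773.IE.SR

/-!
# Project IE: the zero-one law `t_io2`
-/

set_option autoImplicit false

open MeasureTheory Set Filter Topology
open scoped ENNReal

namespace Pool.Agent.H213.IE

open Pool.Agent.H773.IE

variable {m : ℕ}

theorem irr_run (hirr : S_irr) (hm : 1 ≤ m) (p : List Bool) (s : Sta m) (h : IrrS s) :
    IrrS (run p s) := by
  induction p generalizing s with
  | nil => exact h
  | cons b p ih => exact ih _ (hirr m hm s h b)

theorem cyl_prefix {p p' : List Bool} (h : p' <+: p) {s : Sta m} {lam : Fin (m + 1) → ℝ}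
    (hc : Cyl p s lam) : Cyl p' s lam := by
  obtain ⟨t, rfl⟩ := h
  exact ((Cyl_append _ _ _ _).1 hc).1

theorem cyl_unique : ∀ (p p' : List Bool) (s : Sta m) (lam : Fin (m + 1) → ℝ),
    Cyl p s lam → Cyl p' s lam → p'.length ≤ p.length → p' <+: p
  | _, [], _, _, _, _, _ => List.nil_prefix
  | [], b :: t, _, _, _, _, h => absurd h (by simp)
  | b :: p, b' :: p', s, lam, h, h', hl => by
      have hb : b = b' := by
        have h1 := h.1
        have h2 := h'.1
        cases b <;> cases b' <;> simp only [win, los, if_true, Bool.false_eq_true, if_false]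
          at h1 h2 ⊢ <;> exact absurd h2 (not_lt.2 h1.le)
      subst hb
      rw [List.cons_prefix_cons]
      refine ⟨rfl, cyl_unique p p' _ _ h.2 h'.2 ?_⟩
      simpa using hl

theorem cyl_exists {s : Sta m} {lam : Fin (m + 1) → ℝ} (h : NoTie s lam) (L : ℕ) :
    ∃ p : List Bool, p.length = L ∧ Cyl p s lam := by
  induction L with
  | zero => exact ⟨[], rfl, trivial⟩
  | succ L ih =>
    obtain ⟨p, hp, hc⟩ := ih
    rcases lt_or_gt_of_ne (h p hc) with h1 | h1
    · refine ⟨p ++ [false], by simp [hp], ?_⟩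
      rw [Cyl_append]
      exact ⟨hc, by simpa [Cyl, win, los] using h1⟩
    · refine ⟨p ++ [true], by simp [hp], ?_⟩
      rw [Cyl_append]
      exact ⟨hc, by simpa [Cyl, win, los] using h1⟩

/-- a good time -/
def Good (γ : Sta m → List Bool) (R : ℝ) (s : Sta m) (q lam : Fin (m + 1) → ℝ) (p : List Bool) :
    Prop :=
  Cyl (p ++ γ (run p s)) s lam ∧ Bal R (runQ p s q)

/-- there is a good time -/
def AA (γ : Sta m → List Bool) (R : ℝ) (s : Sta m) (q : Fin (m + 1) → ℝ) :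
    Set (Fin (m + 1) → ℝ) :=
  {lam | ∃ p, Good γ R s q lam p}

/-- there is a good time before `k` -/
def Ak (γ : Sta m → List Bool) (R : ℝ) (k : ℕ) (s : Sta m) (q : Fin (m + 1) → ℝ) :
    Set (Fin (m + 1) → ℝ) :=
  {lam | ∃ p : List Bool, p.length ≤ k ∧ Good γ R s q lam p}

theorem good_append {γ : Sta m → List Bool} {R : ℝ} {s : Sta m} {q lam : Fin (m + 1) → ℝ}
    {p p' : List Bool} (hp : Cyl p s lam)
    (h : Good γ R (run p s) (runQ p s q) (runL p s lam) p') : Good γ R s q lam (p ++ p') := by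
  refine ⟨?_, ?_⟩
  · rw [run_append, List.append_assoc, Cyl_append]
    exact ⟨hp, h.1⟩
  · rw [runQ_append]
    exact h.2

theorem meas_good (hlawp : S_lawp) (hm : 1 ≤ m) (γ : Sta m → List Bool) (R : ℝ) {s : Sta m}
    (hs : IrrS s) {q : Fin (m + 1) → ℝ} (hq : ∀ i, 0 < q i) (p : List Bool) :
    MeasurableSet {lam | Good γ R s q lam p} := by
  by_cases h : Bal R (runQ p s q)
  · have : {lam | Good γ R s q lam p} = {lam | Cyl (p ++ γ (run p s)) s lam} := by
      ext lam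
      exact ⟨fun h1 => h1.1, fun h1 => ⟨h1, h⟩⟩
    rw [this]
    exact (hlawp m hm s hs q hq _ Set.univ MeasurableSet.univ).1
  · have : {lam | Good γ R s q lam p} = ∅ := by
      ext lam
      simp only [mem_ofPred_eq, mem_empty_iff_false, iff_false]
      exact fun h1 => h h1.2
    rw [this]
    exact MeasurableSet.empty

theorem meas_AA (hlawp : S_lawp) (hm : 1 ≤ m) (γ : Sta m → List Bool) (R : ℝ) {s : Sta m}
    (hs : IrrS s) {q : Fin (m + 1) → ℝ} (hq : ∀ i, 0 < q i) :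
    MeasurableSet (AA γ R s q) := by
  have : AA γ R s q = ⋃ p : List Bool, {lam | Good γ R s q lam p} := by
    ext lam
    simp [AA]
  rw [this]
  exact MeasurableSet.iUnion fun p => meas_good hlawp hm γ R hs hq p

theorem meas_Ak (hlawp : S_lawp) (hm : 1 ≤ m) (γ : Sta m → List Bool) (R : ℝ) (k : ℕ) {s : Sta m}
    (hs : IrrS s) {q : Fin (m + 1) → ℝ} (hq : ∀ i, 0 < q i) :
    MeasurableSet (Ak γ R k s q) := by
  have : Ak γ R k s q = ⋃ p : List Bool, ⋃ _ : p.length ≤ k, {lam | Good γ R s q lam p} := by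
    ext lam
    simp [Ak]
  rw [this]
  exact MeasurableSet.iUnion fun p => MeasurableSet.iUnion fun _ => meas_good hlawp hm γ R hs hq p

theorem AA_eq_iUnion (γ : Sta m → List Bool) (R : ℝ) (s : Sta m) (q : Fin (m + 1) → ℝ) :
    AA γ R s q = ⋃ k, Ak γ R k s q := by
  ext lam
  simp only [AA, Ak, mem_ofPred_eq, mem_iUnion]
  constructor
  · rintro ⟨p, hp⟩
    exact ⟨p.length, p, le_rfl, hp⟩
  · rintro ⟨k, p, _, hp⟩
    exact ⟨p, hp⟩

theorem Ak_mono (γ : Sta m → List Bool) (R : ℝ) (s : Sta m) (q : Fin (m + 1) → ℝ) :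
    Monotone fun k => Ak γ R k s q := by
  rintro k l hkl lam ⟨p, hp, hg⟩
  exact ⟨p, hp.trans hkl, hg⟩

/-- the key inequality -/
theorem key (hex : S_ex) (hirr : S_irr) (hlawp : S_lawp) (htie : S_tie) (hm : 1 ≤ m)
    (γ : Sta m → List Bool) (R : ℝ) (c : ℝ≥0∞)
    (hc : ∀ (s : Sta m), IrrS s → ∀ q : Fin (m + 1) → ℝ, (∀ i, 0 < q i) → c ≤ EE q (AA γ R s q))
    (s : Sta m) (hs : IrrS s) (q : Fin (m + 1) → ℝ) (hq : ∀ i, 0 < q i) (k : ℕ) :
    EE q (AA γ R s q)ᶜ ≤ (1 - c) * EE q (Ak γ R k s q)ᶜ := by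
  classical
  obtain ⟨N, hN⟩ : ∃ N : ℕ, ∀ s : Sta m, (γ s).length ≤ N :=
    ⟨Finset.univ.sup fun s => (γ s).length, fun s =>
      Finset.le_sup (f := fun s => (γ s).length) (Finset.mem_univ s)⟩
  -- the cylinders
  let F : Set (List Bool) :=
    {p | p.length = k + N ∧ {lam | Cyl p s lam} ⊆ (Ak γ R k s q)ᶜ}
  have hcyl : ∀ p, MeasurableSet {lam | Cyl p s lam} := fun p =>
    (hlawp m hm s hs q hq p Set.univ MeasurableSet.univ).1
  have h1 : ((AA γ R s q)ᶜ : Set (Fin (m + 1) → ℝ)) ≤ᵐ[EE q] ⋃ p : F, {lam | Cyl p.1 s lam ∧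
      runL p.1 s lam ∈ (AA γ R (run p.1 s) (runQ p.1 s q))ᶜ} := by
    filter_upwards [htie m hm s hs q hq] with lam hlam hA
    obtain ⟨p, hpl, hpc⟩ := cyl_exists hlam (k + N)
    have hpF : p ∈ F := by
      refine ⟨hpl, ?_⟩
      rintro lam' hlam' ⟨p', hp'k, hp'g⟩
      apply hA
      have h2 : p' ++ γ (run p' s) <+: p := by
        refine cyl_unique _ _ _ _ hlam' hp'g.1 ?_
        rw [List.length_append, hpl]
        exact Nat.add_le_add hp'k (hN _)
      exact ⟨p', cyl_prefix h2 hpc, hp'g.2⟩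
    refine mem_iUnion.2 ⟨⟨p, hpF⟩, hpc, ?_⟩
    rintro ⟨p', hp'⟩
    exact hA ⟨p ++ p', good_append hpc hp'⟩
  have h2 : ∀ p : F, EE q {lam | Cyl p.1 s lam ∧
      runL p.1 s lam ∈ (AA γ R (run p.1 s) (runQ p.1 s q))ᶜ} ≤
        (1 - c) * EE q {lam | Cyl p.1 s lam} := by
    intro p
    have hq' := runQ_pos (s := s) hq p.1
    have hs' := irr_run hirr hm p.1 s hs
    have hmA := meas_AA hlawp hm γ R hs' hq'
    have : IsProbabilityMeasure (EE (runQ p.1 s q)) := (hex _ _ hq').2.1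
    rw [(hlawp m hm s hs q hq p.1 _ hmA.compl).2.2]
    have h3 := (hlawp m hm s hs q hq p.1 Set.univ MeasurableSet.univ).2.2
    simp only [mem_univ, and_true, measure_univ, mul_one] at h3
    rw [h3, mul_comm]
    gcongr
    rw [prob_compl_eq_one_sub hmA]
    exact tsub_le_tsub_left (hc _ hs' _ hq') _
  calc EE q (AA γ R s q)ᶜ ≤ EE q (⋃ p : F, {lam | Cyl p.1 s lam ∧
        runL p.1 s lam ∈ (AA γ R (run p.1 s) (runQ p.1 s q))ᶜ}) := measure_mono_ae h1
    _ ≤ ∑' p : F, EE q {lam | Cyl p.1 s lam ∧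
        runL p.1 s lam ∈ (AA γ R (run p.1 s) (runQ p.1 s q))ᶜ} := measure_iUnion_le _
    _ ≤ ∑' p : F, (1 - c) * EE q {lam | Cyl p.1 s lam} := ENNReal.tsum_le_tsum h2
    _ = (1 - c) * ∑' p : F, EE q {lam | Cyl p.1 s lam} := ENNReal.tsum_mul_left
    _ = (1 - c) * EE q (⋃ p : F, {lam | Cyl p.1 s lam}) := by
        rw [measure_iUnion]
        · rintro ⟨p, hp⟩ ⟨p', hp'⟩ hne
          rw [Function.onFun, Set.disjoint_left]
          intro lam h3 h4
          apply hne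
          have h5 := cyl_unique p p' s lam h3 h4 (by rw [hp.1, hp'.1])
          exact Subtype.ext (h5.eq_of_length (by rw [hp.1, hp'.1])).symm
        · exact fun p => hcyl p.1
    _ ≤ (1 - c) * EE q (Ak γ R k s q)ᶜ := by
        gcongr
        exact iUnion_subset fun p => p.2.2

theorem AA_null (hex : S_ex) (hirr : S_irr) (hlawp : S_lawp) (htie : S_tie) (hm : 1 ≤ m)
    (γ : Sta m → List Bool) (R : ℝ) (c : ℝ≥0∞) (hc0 : 0 < c)
    (hc : ∀ (s : Sta m), IrrS s → ∀ q : Fin (m + 1) → ℝ, (∀ i, 0 < q i) → c ≤ EE q (AA γ R s q))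
    (s : Sta m) (hs : IrrS s) (q : Fin (m + 1) → ℝ) (hq : ∀ i, 0 < q i) :
    EE q (AA γ R s q)ᶜ = 0 := by
  have : IsProbabilityMeasure (EE q) := (hex _ _ hq).2.1
  have hlim : Tendsto (fun k => (1 - c) * EE q (Ak γ R k s q)ᶜ) atTop
      (𝓝 ((1 - c) * EE q (AA γ R s q)ᶜ)) := by
    refine ENNReal.Tendsto.const_mul ?_ (Or.inr (ENNReal.sub_ne_top ENNReal.one_ne_top))
    have h1 : (AA γ R s q)ᶜ = ⋂ k, (Ak γ R k s q)ᶜ := by
      rw [AA_eq_iUnion, compl_iUnion]
    rw [h1]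
    refine tendsto_measure_iInter_atTop (fun k => (meas_Ak hlawp hm γ R k hs hq).compl.nullMeasurableSet) ?_ ⟨0, measure_ne_top _ _⟩
    intro k l hkl
    exact compl_subset_compl.2 (Ak_mono γ R s q hkl)
  have h2 : EE q (AA γ R s q)ᶜ ≤ (1 - c) * EE q (AA γ R s q)ᶜ :=
    ge_of_tendsto' hlim fun k => key hex hirr hlawp htie hm γ R c hc s hs q hq k
  by_contra h3
  have h4 : EE q (AA γ R s q)ᶜ ≠ ⊤ := measure_ne_top _ _
  have h5 : (1 - c) * EE q (AA γ R s q)ᶜ < 1 * EE q (AA γ R s q)ᶜ :=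
    ENNReal.mul_lt_mul_left h3 h4 (ENNReal.sub_lt_self ENNReal.one_ne_top one_ne_zero hc0.ne')
  rw [one_mul] at h5
  exact absurd h2 (not_le.2 h5)

theorem t_io2 (hex : S_ex) (hirr : S_irr) (hlawp : S_lawp) (htie : S_tie) : S_io2 := by
  intro m hm γ R c hc0 hc s hs q hq
  have hnull := fun (s : Sta m) (hs : IrrS s) (q : Fin (m + 1) → ℝ) (hq : ∀ i, 0 < q i) =>
    AA_null hex hirr hlawp htie hm γ R c hc0 hc s hs q hq
  have h1 : ∀ p : List Bool, ∀ᵐ lam ∂(EE q), Cyl p s lam →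
      runL p s lam ∈ AA γ R (run p s) (runQ p s q) := by
    intro p
    have hq' := runQ_pos (s := s) hq p
    have hs' := irr_run hirr hm p s hs
    have hmA := meas_AA hlawp hm γ R hs' hq'
    have h2 := (hlawp m hm s hs q hq p _ hmA.compl).2.2
    rw [hnull _ hs' _ hq', mul_zero] at h2
    rw [ae_iff]
    convert h2 using 2
    ext lam
    simp
  filter_upwards [ae_all_iff.2 h1, htie m hm s hs q hq] with lam h2 h3 K
  obtain ⟨p, hpl, hpc⟩ := cyl_exists h3 K
  obtain ⟨p', hp'⟩ := h2 p hpc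
  obtain ⟨h4, h5⟩ := good_append hpc hp'
  exact ⟨p ++ p', by rw [List.length_append, hpl]; exact Nat.le_add_right _ _, h4, h5⟩

end Pool.Agent.H213.IE
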